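import Pool.Agent.H78.Zd.L12

/-!
# Zariski dense orbits in open sets, of polynomial maps commensurable with triangular maps

Let `f = (f_1, …, f_n)` be a dominant triangular polynomial self-map of affine space over the
algebraic numbers (`f_i` is an arbitrary polynomial in `x_i, …, x_n`), or a dominant polynomial
self-map which is commensurable with a triangular map, see `Commensurable`; for example, an iterate
of `f` is conjugate to a triangular polynomial map by a birational map. If `f` has no nonconstant
invariant rational function, then every nonempty open set contains a Zariski dense orbit.

Proof for triangular maps. One chooses `x_n, x_(n-1), …, x_1` one after the other. There are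
infinitely many primes `p` and embeddings of `ℚ̄` in `ℚ̄_p` for which all coefficients are `p`-adic
integers. At finitely many of these places, which are used for the next coordinates, the orbit of
the point constructed so far is recurrent, and finitely many given polynomials are units along the
orbit; at the end one place is left, at which the polynomial `B` with `{B ≠ 0} ⊆ U` is a unit along
the orbit.

If `f_i` has degree at least two in `x_i`, then the new coordinate is chosen to be very large at one
place, where it tends to infinity along the orbit; so the coefficients of a polynomial which
vanishes on the orbit vanish on the orbit in the other coordinates. At the other places the new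
coordinate is chosen near a noncritical periodic point of the reduction, whose orbit avoids the
zeros of the given polynomials.

If `f_i = a x_i + b` with polynomials `a ≠ 0`, `b` in the other variables, then a minimal polynomial
for the new coordinate `x` which vanishes on the orbit gives, since there is no invariant rational
function, an invariant section `D x = E`, and there is at most one invariant section. The new
coordinate is chosen very large at one place, where `D` is a unit and `E` is integral, so that
the point is not on the section. At the other places the new coordinate is chosen such that the
given polynomials are units along the orbit; the reductions of the orbits are periodic with a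
common period.
-/

set_option autoImplicit false

namespace Pool.Agent.Results.MP_ccfdad_ag.StrongFormCommensurable

open MvPolynomial Pool.Agent.H78.Zd

/-- the self-map of affine space given by polynomials `g i` -/
noncomputable def pmap {n : ℕ} (g : Fin n → MvPolynomial (Fin n) (AlgebraicClosure ℚ))
    (y : Fin n → AlgebraicClosure ℚ) : Fin n → AlgebraicClosure ℚ :=
  fun i => MvPolynomial.eval y (g i)

/-- the rational self-map of affine space given by the rational functions `a i / b`, at points at
which `b` does not vanish -/
noncomputable def rmap {n : ℕ} (a : Fin n → MvPolynomial (Fin n) (AlgebraicClosure ℚ))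
    (b : MvPolynomial (Fin n) (AlgebraicClosure ℚ))
    (y : Fin n → AlgebraicClosure ℚ) : Fin n → AlgebraicClosure ℚ :=
  fun i => MvPolynomial.eval y (a i) / MvPolynomial.eval y b

/-- The smallest class of polynomial self-maps of affine `n`-space over the algebraic numbers which
contains all triangular maps and which contains `f` as soon as it contains some `F` such that, for
some numbers `k, l ≥ 1`, either `F` is dominant and `π ∘ F ^ l = f ^ k ∘ π` (iterates) for some
dominant rational self-map `π = a / b` of affine `n`-space, or `π ∘ f ^ k = F ^ l ∘ π` for some
dominant polynomial self-map `π` of affine `n`-space. -/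
inductive Commensurable {n : ℕ} :
    (Fin n → MvPolynomial (Fin n) (AlgebraicClosure ℚ)) → Prop
  | triangular (F : Fin n → MvPolynomial (Fin n) (AlgebraicClosure ℚ))
      (h : ∀ i j, j < i → (F i).degreeOf j = 0) : Commensurable F
  | quotient (F f a : Fin n → MvPolynomial (Fin n) (AlgebraicClosure ℚ))
      (b : MvPolynomial (Fin n) (AlgebraicClosure ℚ)) (k l : ℕ)
      (hk : 0 < k) (hl : 0 < l) (hb : b ≠ 0)
      (hdom : Function.Injective
        (fun p : MvPolynomial (Fin n) (AlgebraicClosure ℚ) => MvPolynomial.aeval F p))
      (hπ : AlgebraicIndependent (AlgebraicClosure ℚ) (fun i =>
        algebraMap (MvPolynomial (Fin n) (AlgebraicClosure ℚ))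
          (FractionRing (MvPolynomial (Fin n) (AlgebraicClosure ℚ))) (a i) /
        algebraMap (MvPolynomial (Fin n) (AlgebraicClosure ℚ))
          (FractionRing (MvPolynomial (Fin n) (AlgebraicClosure ℚ))) b))
      (h : ∀ y, MvPolynomial.eval y b ≠ 0 → MvPolynomial.eval ((pmap F)^[l] y) b ≠ 0 →
        rmap a b ((pmap F)^[l] y) = (pmap f)^[k] (rmap a b y))
      (hF : Commensurable F) : Commensurable f
  | cover (F f π : Fin n → MvPolynomial (Fin n) (AlgebraicClosure ℚ)) (k l : ℕ)
      (hk : 0 < k) (hl : 0 < l)
      (hπ : Function.Injective
        (fun p : MvPolynomial (Fin n) (AlgebraicClosure ℚ) => MvPolynomial.aeval π p))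
      (h : ∀ y, pmap π ((pmap f)^[k] y) = (pmap F)^[l] (pmap π y))
      (hF : Commensurable F) : Commensurable f

/-- Let `f` be a polynomial self-map of affine `n`-space over the algebraic numbers which is
triangular (`f i` does not involve the variables `x_j` with `j < i`) or, more generally,
commensurable with a triangular map. Suppose that `f` is dominant and has no invariant rational
function `p / q` which is not a constant. Then for every nonzero polynomial `B` there is a point `P`
of affine space whose orbit is contained in the open set `B ≠ 0` and is Zariski dense: no nonzero
polynomial vanishes identically on it. -/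
theorem result :
    ∀ (n : ℕ) (f : Fin n → MvPolynomial (Fin n) (AlgebraicClosure ℚ)),
      Commensurable f →
      Function.Injective
          (fun p : MvPolynomial (Fin n) (AlgebraicClosure ℚ) => MvPolynomial.aeval f p) →
      (¬ ∃ p q : MvPolynomial (Fin n) (AlgebraicClosure ℚ),
          q ≠ 0 ∧
          (∀ c : AlgebraicClosure ℚ, p ≠ MvPolynomial.C c * q) ∧
          MvPolynomial.aeval f p * q = MvPolynomial.aeval f q * p) →
      ∀ B : MvPolynomial (Fin n) (AlgebraicClosure ℚ), B ≠ 0 →
      ∃ P : Fin n → AlgebraicClosure ℚ,
        (∀ m : ℕ,
          MvPolynomial.eval
            ((fun x : Fin n → AlgebraicClosure ℚ =>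
                fun i : Fin n => MvPolynomial.eval x (f i))^[m] P) B ≠ 0) ∧
        ∀ h : MvPolynomial (Fin n) (AlgebraicClosure ℚ),
          (∀ m : ℕ,
            MvPolynomial.eval
              ((fun x : Fin n → AlgebraicClosure ℚ =>
                  fun i : Fin n => MvPolynomial.eval x (f i))^[m] P) h = 0) →
          h = 0 := by
  intro n f hf hdom hinv B hB
  have hcs : Cs f := by
    clear hdom hinv
    induction hf with
    | triangular F h => exact cs_tri F h
    | quotient F f a b k l hk hl hb hdom hπ h _ ih =>
      exact cs_rat f F a b hb k l hk hl hdom hπ h ih
    | cover F f π k l hk hl hπ h _ ih => exact cs_cover f F π k l hk hl hπ h ih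
  exact hcs hdom (fun P Q hQ hPQ => by
    by_contra hcon
    push Not at hcon
    exact hinv ⟨P, Q, hQ, hcon, hPQ⟩) B hB

end Pool.Agent.Results.MP_ccfdad_ag.StrongFormCommensurable
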