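import Pool.Agent.H78.Zd.F2

/-!
# Zariski dense orbits of towers over a polynomial automorphism

Let `g` be a polynomial automorphism of `𝔸^M` over the algebraic numbers which has a Zariski dense
orbit, and let `f (x, y) = (f_0, …, f_{N-1}, g (y))` be a polynomial map of `𝔸^(N+M)`, where
`f_i` is a polynomial in `x_i, …, x_{N-1}, y` of degree at least two in `x_i`. If each leading
coefficient is a nonzero constant (or, more generally, has a nonzero constant among its
coefficients as a polynomial in `x_{i+1}, …, x_{N-1}`), then `f` has a Zariski dense orbit.

Proof. For infinitely many primes `p` there is an embedding of `ℚ̄` in `ℚ̄_p` for which everything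
is integral; then `g` is an isometry, and all orbits of integral points are recurrent. One chooses
`x_{N-1}, …, x_0` one after the other. In each step the new coordinate is chosen to be very large at
one of the places, where it then tends to infinity along the orbit, while the orbit in the other
coordinates is recurrent; so the coefficients of a polynomial which vanishes on the orbit vanish on
the orbit in the other coordinates. At finitely many other places, which are used for the next
coordinates, the new coordinate is chosen near a periodic and noncritical point of the reduction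
over the algebraic closure of the field with `p` elements, so that the orbit is recurrent there.
-/

set_option autoImplicit false

namespace Pool.Agent.Results.MP_ccfdad_ag.TowersOverAutomorphisms

open MvPolynomial

/-- The polynomial `C` in the variables `x_0, …, x_{N-1}, y_0, …, y_{M-1}`, considered as a
polynomial in `x_0, …, x_{N-1}` with coefficients in the ring of polynomials in the `y_j`, has a
coefficient which is a nonzero constant: there is a monomial `s₀` of `C` which does not involve the
`y_j` and is the only monomial of `C` with its exponents of `x_0, …, x_{N-1}`. Examples are the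
nonzero constants, the nonzero polynomials in `x_0, …, x_{N-1}` only, and the polynomials which
are monic in one of the `x_j`. -/
def HasConstantCoefficient (M N : ℕ) (C : MvPolynomial (Fin (M + N)) (AlgebraicClosure ℚ)) :
    Prop :=
  ∃ s₀ ∈ C.support, (∀ i : Fin (M + N), N ≤ (i : ℕ) → s₀ i = 0) ∧
    ∀ s ∈ C.support, (∀ i : Fin (M + N), (i : ℕ) < N → s i = s₀ i) → s = s₀

theorem eval_aeval {σ : Type*} (g : σ → MvPolynomial σ (AlgebraicClosure ℚ))
    (y : σ → AlgebraicClosure ℚ) (F : MvPolynomial σ (AlgebraicClosure ℚ)) :
    eval y (aeval g F) = eval (fun j => eval y (g j)) F := by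
  induction F using MvPolynomial.induction_on with
  | C a => simp
  | add p q hp hq => rw [map_add, map_add, hp, hq, map_add]
  | mul_X p i hp => rw [map_mul, map_mul, hp, aeval_X, map_mul, eval_X]

/-- Let `g` be a polynomial self-map of `𝔸^M` over the algebraic numbers, with a polynomial inverse
`g'`, which has a Zariski dense orbit. Let `f` be a polynomial self-map of `𝔸^(N+M)`, with
coordinates `x_i`, `i < N`, and `y_j = x_(N+j)`, `j < M`, such that the last `M` coordinates of `f`
are those of `g (y)` and, for `i < N`, `f_i = c x_i ^ d + G` with `d ≥ 2`, where `c` is a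
polynomial in the variables after `x_i`, with a nonzero constant among its coefficients as
a polynomial in `x_0, …, x_{N-1}`, and `G` is a polynomial in `x_i` and the variables after `x_i`
of degree less than `d` in `x_i`. Then `f` has a Zariski dense orbit. -/
theorem result :
    ∀ (M N : ℕ) (g g' : Fin M → MvPolynomial (Fin M) (AlgebraicClosure ℚ))
      (f : Fin (M + N) → MvPolynomial (Fin (M + N)) (AlgebraicClosure ℚ)),
      -- `g` is an automorphism with the inverse `g'`
      (∀ i, aeval g (g' i) = X i) → (∀ i, aeval g' (g i) = X i) →
      -- `g` has a Zariski dense orbit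
      (∃ Q : Fin M → AlgebraicClosure ℚ, ∀ h : MvPolynomial (Fin M) (AlgebraicClosure ℚ),
        (∀ n : ℕ, eval ((fun y : Fin M → AlgebraicClosure ℚ =>
          fun i : Fin M => eval y (g i))^[n] Q) h = 0) → h = 0) →
      -- the coordinates `N + j` of `f` are those of `g`
      (∀ j : Fin M, f (j.addNat N) = rename (fun i : Fin M => i.addNat N) (g j)) →
      -- the coordinates `i < N` of `f`
      (∀ i : Fin (M + N), (i : ℕ) < N →
        ∃ (c G : MvPolynomial (Fin (M + N)) (AlgebraicClosure ℚ)) (d : ℕ),
          f i = c * X i ^ d + G ∧ 2 ≤ d ∧ HasConstantCoefficient M N c ∧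
          (∀ j, j ≤ i → c.degreeOf j = 0) ∧ G.degreeOf i < d ∧
          (∀ j, j < i → G.degreeOf j = 0)) →
      ∃ P : Fin (M + N) → AlgebraicClosure ℚ,
        ∀ h : MvPolynomial (Fin (M + N)) (AlgebraicClosure ℚ),
          (∀ n : ℕ, eval ((fun x : Fin (M + N) → AlgebraicClosure ℚ =>
            fun i : Fin (M + N) => eval x (f i))^[n] P) h = 0) → h = 0 := by
  intro M N g g' f hg _ hQ hb hf
  obtain ⟨Q, hQ⟩ := hQ
  refine Pool.Agent.H78.Zd.tower_aut g g' (fun y => ?_) Q hQ N f hb hf
  funext i
  show eval (fun j => eval y (g j)) (g' i) = y i
  have h1 := congrArg (eval y) (hg i)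
  rw [eval_X, eval_aeval] at h1
  exact h1

end Pool.Agent.Results.MP_ccfdad_ag.TowersOverAutomorphisms
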